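import Pool.Agent.H32.CH.Targets

/-!
# Module M5 of the board `ch_modules`: a token sees at most one K2
-/

set_option autoImplicit false

open Finset Pool.Agent.H32.CH

namespace Pool.Agent.H42.CH.M5

theorem pf_M5 (h1 : T_M1) (h2 : T_M2) : T_M5 := by
  classical
  intro V _ G A hD hT hE x b₁ b₂ hx hb₁ hb₂ hne ha1 ha2
  have hb12 : ¬ G.Adj b₁ b₂ := fun h => hT x b₁ b₂ ha1 h ha2.symm
  have hb21 : ¬ G.Adj b₂ b₁ := fun h => hb12 h.symm
  have hx1 : x ≠ b₁ := ha1.ne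
  have hx2 : x ≠ b₂ := ha2.ne
  obtain ⟨-, hA1⟩ := (h2 V G A hD hE.1).1 x hx.1 hx.2
  have hb1A1 : b₁ ∉ A.erase x := fun h => hb₁.1 (mem_of_mem_erase h)
  have hb2A1 : b₂ ∉ A.erase x := fun h => hb₂.1 (mem_of_mem_erase h)
  have hxc : x ∉ Aᶜ := fun h => (mem_compl.1 h) hx.1
  have e1 : dg G (A.erase x)ᶜ b₁ = dg G Aᶜ b₁ + 1 := by
    rw [compl_erase']; exact dg_insert_adj hxc ha1.symm
  have e2 : dg G (A.erase x)ᶜ b₂ = dg G Aᶜ b₂ + 1 := by
    rw [compl_erase']; exact dg_insert_adj hxc ha2.symm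
  have m1 := (h1 V G _ hD hA1).2 b₁ hb1A1
  have m2 := (h1 V G _ hD hA1).2 b₂ hb2A1
  have n1 := hb₁.2
  have n2 := hb₂.2
  obtain ⟨-, hA2⟩ := (h2 V G _ hD hA1).2 b₁ hb1A1 (by omega)
  have hb2A2 : b₂ ∉ insert b₁ (A.erase x) := by
    intro h
    rcases mem_insert.1 h with h | h
    · exact hne h.symm
    · exact hb2A1 h
  have e3 : dg G (insert b₁ (A.erase x))ᶜ b₂ = dg G (A.erase x)ᶜ b₂ := by
    rw [compl_insert']; exact dg_erase_not hb21
  obtain ⟨-, hA3⟩ := (h2 V G _ hD hA2).2 b₂ hb2A2 (by omega)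
  have hc := hE.2 _ hA3
  rw [card_insert_of_notMem hb2A2, card_insert_of_notMem hb1A1] at hc
  have := card_erase_add_one hx.1
  omega

end Pool.Agent.H42.CH.M5
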